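import Mathlib

/-!
# HC, part G: independence of the embeddings of a Galois number field, traces (author helper21)
-/

set_option autoImplicit false

noncomputable section

namespace HC

open scoped BigOperators

/-- **Dedekind.** The vectors `(τ₀ (g x))_g`, `x ∈ K`, span `ℂ^G`; in particular the first unit vector is a
combination of them. -/
theorem G_ded (K : Type) [Field K] [NumberField K] [IsGalois ℚ K] (τ₀ : K →+* ℂ) :
    ∃ (N : ℕ) (x : Fin N → K) (y : Fin N → ℂ), (∑ b, y b * τ₀ (x b) = 1) ∧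
      ∀ g : K ≃ₐ[ℚ] K, g ≠ 1 → ∑ b, y b * τ₀ (g (x b)) = 0 := by
  classical
  let W : Submodule ℂ ((K ≃ₐ[ℚ] K) → ℂ) := Submodule.span ℂ (Set.range fun x : K => fun g => τ₀ (g x))
  have hW : W = ⊤ := by
    by_contra hne
    obtain ⟨f, hf0, hf⟩ := Submodule.exists_le_ker_of_lt_top W (lt_top_iff_ne_top.2 hne)
    -- Dedekind independence
    have hli : LinearIndependent ℂ (fun g : K ≃ₐ[ℚ] K =>
        (fun x : K => τ₀ (g x) : K → ℂ)) := by
      let F : (K ≃ₐ[ℚ] K) → (K →* ℂ) := fun g => (τ₀.comp (g : K →+* K)).toMonoidHom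
      have h2 : Function.Injective F := by
        intro g g' h
        ext x
        have h3 := DFunLike.congr_fun h x
        exact τ₀.injective h3
      exact (linearIndependent_monoidHom K ℂ).comp F h2
    have h3 : ∀ x : K, ∑ g : K ≃ₐ[ℚ] K, f (Pi.single g 1) * τ₀ (g x) = 0 := by
      intro x
      have h4 : f (fun g => τ₀ (g x)) = 0 := hf (Submodule.subset_span ⟨x, rfl⟩)
      rw [LinearMap.pi_apply_eq_sum_univ f] at h4
      rw [← h4]
      refine Finset.sum_congr rfl (fun g _ => ?_)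
      rw [smul_eq_mul, mul_comm]
      congr 2
      funext g'
      simp [Pi.single_apply, eq_comm]
    have h5 : ∀ g : K ≃ₐ[ℚ] K, f (Pi.single g 1) = 0 := by
      refine Fintype.linearIndependent_iff.1 hli (fun g => f (Pi.single g 1)) ?_
      funext x
      rw [Finset.sum_apply]
      simpa [smul_eq_mul] using h3 x
    refine hf0 (LinearMap.ext fun v => ?_)
    rw [LinearMap.pi_apply_eq_sum_univ f v]
    refine Finset.sum_eq_zero (fun g _ => ?_)
    have h6 : (fun j => if g = j then (1 : ℂ) else 0) = Pi.single g 1 := by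
      funext g'
      simp [Pi.single_apply, eq_comm]
    rw [h6, h5, smul_zero]
  have h1 : (fun g : K ≃ₐ[ℚ] K => if g = 1 then (1 : ℂ) else 0) ∈ W := hW ▸ Submodule.mem_top
  obtain ⟨N, y, v, hv⟩ := Submodule.mem_span_set'.1 h1
  choose x hx using fun b => (v b).2
  have h2 : ∀ g : K ≃ₐ[ℚ] K, ∑ b, y b * τ₀ (g (x b)) = if g = 1 then (1 : ℂ) else 0 := by
    intro g
    have h2 := congrFun hv g
    rw [← h2, Finset.sum_apply]
    refine Finset.sum_congr rfl (fun b _ => ?_)
    rw [Pi.smul_apply, smul_eq_mul, ← hx b]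
  refine ⟨N, x, y, ?_, fun g hg => ?_⟩
  · have h3 := h2 1
    rw [if_pos rfl] at h3
    exact h3
  · have h3 := h2 g
    rwa [if_neg hg] at h3

/-- The sum over the Galois group is rational. -/
theorem G_tr (K : Type) [Field K] [NumberField K] [IsGalois ℚ K] (τ₀ : K →+* ℂ) (z : K) :
    ∑ g : K ≃ₐ[ℚ] K, τ₀ (g z) = ((Algebra.trace ℚ K z : ℚ) : ℂ) := by
  rw [← map_sum, ← trace_eq_sum_automorphisms]
  rw [eq_ratCast, map_ratCast]

end HC
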