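import Pool.Agent.Lib.HC.Defs
import Pool.Agent.Lib.HC.G.Ded

/-!
# HC, part G: the intersection with `ζ_s ∧ ζ_s'` preserves `Alg` (author helper21)

`zs g = ζ_(g s)`, `zs' g = ζ_(g s')`, `g` in the Galois group `G` of `K`. On the lattice `ζ_(g s) = τ₀ (g y)` for some
`y ∈ K` (independent of `g`), and for every `g` exactly one of `ζ_(g s)`, `ζ_(g s')` is complex linear, the other one is
antilinear. Then `E_x = ∑_g τ₀ (g x) ζ_(g s) ∧ ζ_(g s')` is the class of a rational divisor, and `ζ_s ∧ ζ_s'` is a combination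
of the `E_x`.
-/

set_option autoImplicit false

noncomputable section

namespace HC

open scoped BigOperators

/-- `E_x` is the class of a divisor. -/
theorem G_div (K : Type) [Field K] [NumberField K] [IsGalois ℚ K] (τ₀ : K →+* ℂ) (T : AV)
    (zs zs' : (K ≃ₐ[ℚ] K) → (T.V →ₗ[ℝ] ℂ))
    (hL : ∀ v ∈ T.L, ∃ y : K, ∀ g : K ≃ₐ[ℚ] K, zs g v = τ₀ (g y))
    (hL' : ∀ v ∈ T.L, ∃ y : K, ∀ g : K ≃ₐ[ℚ] K, zs' g v = τ₀ (g y))
    (hT : ∀ g : K ≃ₐ[ℚ] K, ∃ e : ℂ, e * e = -1 ∧ (∀ v, zs g (Complex.I • v) = e * zs g v) ∧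
      ∀ v, zs' g (Complex.I • v) = -e * zs' g v)
    (x : K) {r : ℕ} (eq : Fin r ≃ (K ≃ₐ[ℚ] K)) :
    IsDiv T (fun j => τ₀ (eq j x) • zs (eq j)) (fun j => zs' (eq j)) := by
  refine ⟨fun u hu v hv => ?_, fun u v => ?_⟩
  · obtain ⟨yu, hyu⟩ := hL u hu
    obtain ⟨yv, hyv⟩ := hL v hv
    obtain ⟨yu', hyu'⟩ := hL' u hu
    obtain ⟨yv', hyv'⟩ := hL' v hv
    refine ⟨Algebra.trace ℚ K (x * (yu * yv' - yv * yu')), ?_⟩
    rw [← G_tr K τ₀]
    rw [← Equiv.sum_comp eq (fun g => τ₀ (g (x * (yu * yv' - yv * yu'))))]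
    refine Finset.sum_congr rfl (fun j _ => ?_)
    simp only [LinearMap.smul_apply, smul_eq_mul, hyu, hyv, hyu', hyv', map_mul, map_sub]
    ring
  · refine Finset.sum_congr rfl (fun j _ => ?_)
    obtain ⟨e, he, h1, h2⟩ := hT (eq j)
    simp only [LinearMap.smul_apply, smul_eq_mul, h1, h2]
    linear_combination (-(τ₀ (eq j x) * zs (eq j) u * zs' (eq j) v) +
      τ₀ (eq j x) * zs (eq j) v * zs' (eq j) u) * he

/-- **Part G.** -/
theorem G_cap (K : Type) [Field K] [NumberField K] [IsGalois ℚ K] (τ₀ : K →+* ℂ) (T : AV)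
    (zs zs' : (K ≃ₐ[ℚ] K) → (T.V →ₗ[ℝ] ℂ))
    (hL : ∀ v ∈ T.L, ∃ y : K, ∀ g : K ≃ₐ[ℚ] K, zs g v = τ₀ (g y))
    (hL' : ∀ v ∈ T.L, ∃ y : K, ∀ g : K ≃ₐ[ℚ] K, zs' g v = τ₀ (g y))
    (hT : ∀ g : K ≃ₐ[ℚ] K, ∃ e : ℂ, e * e = -1 ∧ (∀ v, zs g (Complex.I • v) = e * zs g v) ∧
      ∀ v, zs' g (Complex.I • v) = -e * zs' g v)
    {m : ℕ} {c : Hlg T (m + 2)} (hc : Alg T (m + 2) c) :
    Alg T m ((c.curryLeft (zs 1)).curryLeft (zs' 1)) := by
  classical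
  obtain ⟨N, x, y, h1, h2⟩ := G_ded K τ₀
  let r : ℕ := Fintype.card (K ≃ₐ[ℚ] K)
  let eq : Fin r ≃ (K ≃ₐ[ℚ] K) := (Fintype.equivFin (K ≃ₐ[ℚ] K)).symm
  have h3 : ∀ b : Fin N, Alg T m (cap (fun j => τ₀ (eq j (x b)) • zs (eq j)) (fun j => zs' (eq j)) c) :=
    fun b => Alg.cap _ _ (G_div K τ₀ T zs zs' hL hL' hT (x b) eq) hc
  have h4 : (c.curryLeft (zs 1)).curryLeft (zs' 1) =
      ∑ b, y b • cap (fun j => τ₀ (eq j (x b)) • zs (eq j)) (fun j => zs' (eq j)) c := by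
    have h5 : ∀ b : Fin N, cap (fun j => τ₀ (eq j (x b)) • zs (eq j)) (fun j => zs' (eq j)) c =
        ∑ g : K ≃ₐ[ℚ] K, τ₀ (g (x b)) • (c.curryLeft (zs g)).curryLeft (zs' g) := by
      intro b
      unfold cap
      rw [← Equiv.sum_comp eq (fun g => τ₀ (g (x b)) • (c.curryLeft (zs g)).curryLeft (zs' g))]
      refine Finset.sum_congr rfl (fun j _ => ?_)
      ext a
      simp
    simp_rw [h5, Finset.smul_sum, smul_smul]
    rw [Finset.sum_comm]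
    simp_rw [← Finset.sum_smul]
    rw [Finset.sum_eq_single (1 : K ≃ₐ[ℚ] K)]
    · have h6 : ∑ i, y i * τ₀ ((1 : K ≃ₐ[ℚ] K) (x i)) = 1 := h1
      rw [h6, one_smul]
    · intro g _ hg
      rw [h2 g hg, zero_smul]
    · intro h
      exact absurd (Finset.mem_univ _) h
  rw [h4]
  have h5 : ∀ s : Finset (Fin N), Alg T m
      (∑ b ∈ s, y b • cap (fun j => τ₀ (eq j (x b)) • zs (eq j)) (fun j => zs' (eq j)) c) := by
    intro s
    induction s using Finset.induction_on with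
    | empty => rw [Finset.sum_empty]; exact Alg.zero
    | insert b s hb ih =>
      rw [Finset.sum_insert hb]
      exact Alg.add (Alg.smul _ (h3 b)) ih
  exact h5 Finset.univ

end HC
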