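import Pool.Agent.Lib.HC.Iface
import Pool.Agent.Lib.HC.G.Cap

/-!
# PROJECT HC: `S_G` from `S_Z` and `G_cap` (author helper21)
-/

set_option autoImplicit false

noncomputable section

namespace HC

theorem tG (hZ : S_Z) : S_G := by
  intro X ι _ f T C s s' hss m c hc
  obtain ⟨-, z2, z3, z4, -, -⟩ := hZ X ι f T C
  have hS : ∀ g : X.G, g * s'.2 ∈ (f s'.1).S ↔ g * s.2 ∉ (f s.1).S := by
    intro g
    have h1 : g ∈ ((f s'.1).div s'.2).S ↔ g ∈ (((f s.1).div s.2).conj).S := by rw [hss]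
    exact h1
  have key := G_cap X.K X.τ T (fun g => C.z (s.1, g * s.2)) (fun g => C.z (s'.1, g * s'.2))
    ?_ ?_ (fun g => ?_) hc
  · have e1 : (s.1, (1 : X.G) * s.2) = s := by rw [one_mul]
    have e2 : (s'.1, (1 : X.G) * s'.2) = s' := by rw [one_mul]
    rw [← e1, ← e2]
    exact key
  · intro v hv
    obtain ⟨y, -, hy⟩ := z4 v hv
    exact ⟨s.2 (y s.1), fun g => hy s.1 (g * s.2)⟩
  · intro v hv
    obtain ⟨y, -, hy⟩ := z4 v hv
    exact ⟨s'.2 (y s'.1), fun g => hy s'.1 (g * s'.2)⟩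
  · by_cases h2 : g * s.2 ∈ (f s.1).S
    · exact ⟨Complex.I, Complex.I_mul_I, fun v => z2 s.1 _ v h2, fun v =>
        z3 s'.1 _ v (fun h3 => (hS g).1 h3 h2)⟩
    · refine ⟨-Complex.I, by rw [neg_mul_neg, Complex.I_mul_I], fun v => z3 s.1 _ v h2, fun v => ?_⟩
      rw [neg_neg]
      exact z2 s'.1 _ v ((hS g).2 h2)

end HC
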