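import Pool.Agent.Lib.HC.E.Main
import Pool.Agent.Lib.HC.G.Cap

/-!
# HC, part G in terms of the coordinates `KCo` of part E (author helper21)
-/

set_option autoImplicit false

noncomputable section

namespace HC

open ComplexConjugate

/-- **Part G.** `s = (j, τ₀ ∘ g)`, `s' = (j', τ₀ ∘ g')`; for every embedding `σ` exactly one of `ζ j (σ ∘ g)`,
`ζ j' (σ ∘ g')` is complex linear. The intersection with `ζ_s ∧ ζ_s'` preserves `Alg`. -/
theorem G_kco {T : AV} {K : Type} [Field K] [NumberField K] [IsGalois ℚ K] {J : Type*}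
    {f : J → Set (K →+* ℂ)} {y : T.V → J → K} {ζ : J → (K →+* ℂ) → (T.V →ₗ[ℝ] ℂ)}
    (h : E.KCo T K J f y ζ) (τ₀ : K →+* ℂ) (j j' : J) (g g' : K ≃ₐ[ℚ] K)
    (hT : ∀ σ : K →+* ℂ, σ.comp (g : K →+* K) ∈ f j ↔ σ.comp (g' : K →+* K) ∉ f j')
    {m : ℕ} {c : Hlg T (m + 2)} (hc : Alg T (m + 2) c) :
    Alg T m ((c.curryLeft (ζ j (τ₀.comp (g : K →+* K)))).curryLeft (ζ j' (τ₀.comp (g' : K →+* K)))) := by
  have key := G_cap K τ₀ T (fun s => ζ j (τ₀.comp ((s : K →+* K).comp (g : K →+* K))))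
    (fun s => ζ j' (τ₀.comp ((s : K →+* K).comp (g' : K →+* K))))
    (fun v hv => ⟨g (y v j), fun s => h.lat v hv j _⟩)
    (fun v hv => ⟨g' (y v j'), fun s => h.lat v hv j' _⟩) (fun s => ?_) hc
  · exact key
  · have h1 := hT (τ₀.comp (s : K →+* K))
    by_cases h2 : (τ₀.comp (s : K →+* K)).comp (g : K →+* K) ∈ f j
    · refine ⟨Complex.I, Complex.I_mul_I, fun v => h.lin j _ h2 _ _, fun v => ?_⟩
      have h3 := h.anti j' _ (h1.1 h2) Complex.I v
      rw [Complex.conj_I] at h3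
      exact h3
    · refine ⟨-Complex.I, by rw [neg_mul_neg, Complex.I_mul_I], fun v => ?_, fun v => ?_⟩
      · have h3 := h.anti j _ h2 Complex.I v
        rw [Complex.conj_I] at h3
        exact h3
      · have h4 : (τ₀.comp (s : K →+* K)).comp (g' : K →+* K) ∈ f j' := by
          by_contra h5
          exact h2 (h1.2 h5)
        have h3 := h.lin j' _ h4 Complex.I v
        rw [neg_neg]
        exact h3

/-- Two complementary factors, the same embedding. -/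
theorem G_kco_compl {T : AV} {K : Type} [Field K] [NumberField K] [IsGalois ℚ K] {J : Type*}
    {f : J → Set (K →+* ℂ)} {y : T.V → J → K} {ζ : J → (K →+* ℂ) → (T.V →ₗ[ℝ] ℂ)}
    (h : E.KCo T K J f y ζ) (τ : K →+* ℂ) (j j' : J) (hT : ∀ σ : K →+* ℂ, σ ∈ f j ↔ σ ∉ f j')
    {m : ℕ} {c : Hlg T (m + 2)} (hc : Alg T (m + 2) c) :
    Alg T m ((c.curryLeft (ζ j τ)).curryLeft (ζ j' τ)) :=
  G_kco h τ j j' 1 1 (fun σ => hT σ) hc

end HC
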